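import Pool.Agent.H73.DC.Main

/-!
MP_37d2f2_pr, Q1, for every dimension `d ≥ 3`: there is a translation-invariant law of the initial
configuration for which the mean of `C_∞(x)` is strictly smaller than the mean of `C_0(x)`, which is
finite. For this law almost surely, whatever the tie-breaking, every site is empty from some time
on, so the mean of `C_∞(x)` is zero.

Proof. A hierarchy of finite trees. The tree of level `k + 1` has a straight trunk; at every vertex
of the trunk starts a stem, all stems have the same length, and each of them ends at the root of
a copy of the tree of level `k`. Because the side trees are identical, the resources along the trunk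
increase strictly at each time as soon as the weights of the trunk do (and the last weights are
corrected by the tails of the inflow of a side tree); the weights of the trunks and stems are
a small part of the total, and the boxes of the copies fill the box of the next tree up to a small
part. Uniform positions in the boxes are coupled so that almost surely the configurations seen from
them converge; the limit is a one-ended forest in which all resources move to infinity.
-/

open MeasureTheory Filter
open scoped ENNReal Topology
open Pool.Agent.H73.DC

namespace Pool.Agent.Results.MP_37d2f2_pr.EscapeFiniteMean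

theorem result (d : ℕ) (hd : 3 ≤ d) : ∃ μ : Measure (Config d), IsProbabilityMeasure μ ∧
    (∀ z : Site d, μ.map (fun c x => c (x + z)) = μ) ∧
    (∀ x : Site d,
      (∀ᵐ p ∂(μ.prod (tieLaw d)), Tendsto (fun n => run p.1 p.2 n x) atTop
        (𝓝 (limsup (fun n => run p.1 p.2 n x) atTop))) ∧
      ∫⁻ p, limsup (fun n => run p.1 p.2 n x) atTop ∂(μ.prod (tieLaw d)) < ∫⁻ c, c x ∂μ ∧
      ∫⁻ c, c x ∂μ < ∞) ∧
    ∀ᵐ c ∂μ, ∀ g : Ties d, ValidTies g → ∀ x, ∀ᶠ n in atTop, run c g n x = 0 :=
  resultDraft d hd

end Pool.Agent.Results.MP_37d2f2_pr.EscapeFiniteMean
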